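import Pool.Agent.N658.FF.Stm3

/-! # D9. Growth on the torus -/

set_option autoImplicit false

open scoped Classical

namespace Pool.Agent.N494.FF

open Finset Pool.Agent.N658.FF Pool.Agent.TH235.PP

lemma mem_Nb {R L : ℕ} [NeZero L] (y : Site L) (j : ℕ) : ∀ z ∈ Nb (adjR R L) j {y},
    ∃ m n : ℤ, |m| ≤ (j : ℤ) * R ∧ |n| ≤ (j : ℤ) * R ∧ z = (y.1 + (m : ZMod L), y.2 + (n : ZMod L)) := by
  induction j with
  | zero =>
    intro z hz
    have h : z = y := by
      unfold Nb at hz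
      exact Finset.mem_singleton.1 hz
    refine ⟨0, 0, by simp, by simp, ?_⟩
    rw [h]
    simp
  | succ j ih =>
    intro z hz
    unfold Nb at hz
    rw [Finset.mem_union] at hz
    rcases hz with hz | hz
    · obtain ⟨m, n, hm, hn, h⟩ := ih z hz
      refine ⟨m, n, hm.trans ?_, hn.trans ?_, h⟩ <;>
      · push_cast
        nlinarith [Int.natCast_nonneg R]
    · rw [Finset.mem_filter] at hz
      obtain ⟨-, x, hx, a, b, hab⟩ := hz
      obtain ⟨m, n, hm, hn, h⟩ := ih x hx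
      unfold sh at hab
      have h1 := congrArg Prod.fst hab
      have h2 := congrArg Prod.snd hab
      simp only at h1 h2
      have ha1 := a.1.2
      have ha2 := a.2.2
      have hb1 := b.1.2
      have hb2 := b.2.2
      refine ⟨m + ((a.1 : ℕ) : ℤ) - ((b.1 : ℕ) : ℤ), n + ((a.2 : ℕ) : ℤ) - ((b.2 : ℕ) : ℤ), ?_, ?_, ?_⟩
      · rw [abs_le] at hm ⊢
        push_cast
        constructor <;> linarith [hm.1, hm.2, (by exact_mod_cast ha1 : ((a.1 : ℕ) : ℤ) < R),
          (by exact_mod_cast hb1 : ((b.1 : ℕ) : ℤ) < R), Int.natCast_nonneg (a.1 : ℕ),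
          Int.natCast_nonneg (b.1 : ℕ)]
      · rw [abs_le] at hn ⊢
        push_cast
        constructor <;> linarith [hn.1, hn.2, (by exact_mod_cast ha2 : ((a.2 : ℕ) : ℤ) < R),
          (by exact_mod_cast hb2 : ((b.2 : ℕ) : ℤ) < R), Int.natCast_nonneg (a.2 : ℕ),
          Int.natCast_nonneg (b.2 : ℕ)]
      · rw [h] at h1 h2
        simp only at h1 h2
        refine Prod.ext ?_ ?_
        · simp only
          push_cast
          rw [← sub_eq_iff_eq_add] at h1
          rw [← h1]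
          ring
        · simp only
          push_cast
          rw [← sub_eq_iff_eq_add] at h2
          rw [← h2]
          ring

theorem grow : StmGrow := by
  intro R L _ hR y j
  set M : ℤ := (j : ℤ) * R with hM
  have hM0 : 0 ≤ M := by positivity
  have hsub : Nb (adjR R L) j {y} ⊆ ((Finset.Icc (-M) M) ×ˢ (Finset.Icc (-M) M)).image
      (fun p : ℤ × ℤ => ((y.1 + (p.1 : ZMod L), y.2 + (p.2 : ZMod L)) : Site L)) := by
    intro z hz
    obtain ⟨m, n, hm, hn, h⟩ := mem_Nb y j z hz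
    rw [Finset.mem_image]
    refine ⟨(m, n), ?_, h.symm⟩
    rw [Finset.mem_product, Finset.mem_Icc, Finset.mem_Icc]
    exact ⟨abs_le.1 hm, abs_le.1 hn⟩
  have hcard := (Finset.card_le_card hsub).trans Finset.card_image_le
  rw [Finset.card_product, Int.card_Icc] at hcard
  have h1 : ((M + 1 - -M).toNat : ℝ) = 2 * ((j : ℝ) * R) + 1 := by
    have h2 : ((M + 1 - -M).toNat : ℤ) = 2 * ((j : ℤ) * R) + 1 := by
      rw [Int.toNat_of_nonneg (by linarith)]
      ring
    exact_mod_cast h2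
  have h2 : ((Nb (adjR R L) j {y}).card : ℝ) ≤ (2 * ((j : ℝ) * R) + 1) * (2 * ((j : ℝ) * R) + 1) := by
    rw [← h1]
    exact_mod_cast hcard
  have hR' : (1 : ℝ) ≤ R := by exact_mod_cast hR
  have hj : (0 : ℝ) ≤ j := Nat.cast_nonneg j
  have h3 : 2 * ((j : ℝ) * R) + 1 ≤ 2 * R * (j + 1) := by nlinarith
  have h4 : (0 : ℝ) ≤ 2 * ((j : ℝ) * R) + 1 := by positivity
  calc _ ≤ (2 * ((j : ℝ) * R) + 1) * (2 * ((j : ℝ) * R) + 1) := h2
    _ ≤ (2 * R * (j + 1)) * (2 * R * (j + 1)) := mul_le_mul h3 h3 h4 (by positivity)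
    _ = _ := by ring

end Pool.Agent.N494.FF
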